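import Pool.Agent.helper78.DC.Final

set_option autoImplicit false

namespace Pool.Agent.Results.MP_dc1de5_nt.Full

open Pool.Agent.helper78.DC

/-- All four assertions: the denominators of `s n` and `t n`, the numerator of `s n` modulo 12,
the congruences at odd prime powers modulo `p`, and the congruences at powers of 3. -/
theorem result :
    (∀ n : ℕ, 0 < n →
      (s n).den = 2 ^ (2 * padicValNat 2 n.factorial) ∧
      (t n).den = 2 ^ (3 * (n - 1 + padicValNat 2 n.factorial) - padicValNat 2 n)) ∧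
    (∀ n : ℕ, 0 < n →
      (Odd n → (s n).num ≡ 1 [ZMOD 12]) ∧ (Even n → (s n).num ≡ 7 [ZMOD 12])) ∧
    (∀ p : ℕ, p.Prime → p ≠ 2 → ∀ a : ℕ, 0 < a →
      RatCongr (s (p ^ a)) 1 p 1 ∧ RatCongr (t (p ^ a)) 1 p 1) ∧
    (∀ a : ℕ, 0 < a →
      RatCongr (s (3 ^ a)) 4 3 2 ∧ RatCongr (t (3 ^ a)) (-8) 3 5) :=
  ⟨fun n hn => ⟨(s_den_num n hn).1, t_den n hn⟩, fun n hn => s_num_mod12 n hn,
    fun p hp hp2 a ha => ⟨s_mod_p p hp hp2 a ha, t_mod_p p hp hp2 a ha⟩,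
    fun a ha => ⟨s_mod9 a ha, t_mod243 a ha⟩⟩

end Pool.Agent.Results.MP_dc1de5_nt.Full
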